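import Pool.Agent.W870.PD.Stmts2

/-!
# Geometry of cells
-/

set_option autoImplicit false
set_option linter.all false
set_option linter.deprecated false

open MeasureTheory Set Pool.Agent.H978R2 Pool.Agent.W804.HP Pool.Agent.W870.PD

namespace Pool.Agent.W804.PD

variable {d : ℕ}

lemma cell_sub (k : ℕ) {w z x : Fin d → ℤ} {m : ℕ} (hz : z ∈ bx w m) (hx : x ∈ bx (cc k z) k) :
    x ∈ bx (cc k w) (rr k m) := by
  rw [mem_bx] at *
  intro i
  have h1 := hz i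
  have h2 := hx i
  unfold cc rr at *
  have h3 : x i - (2 * (k : ℤ) + 1) * w i = (x i - (2 * (k : ℤ) + 1) * z i) +
      (2 * (k : ℤ) + 1) * (z i - w i) := by ring
  rw [h3]
  refine (abs_add_le _ _).trans ?_
  rw [abs_mul, abs_of_nonneg (by positivity : (0 : ℤ) ≤ 2 * (k : ℤ) + 1)]
  have h4 : (2 * (k : ℤ) + 1) * |z i - w i| ≤ (2 * (k : ℤ) + 1) * m :=
    mul_le_mul_of_nonneg_left h1 (by positivity)
  push_cast
  linarith

/-- the cell of a point -/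
def cel (k : ℕ) (x : Fin d → ℤ) : Fin d → ℤ := fun i => (x i + k) / (2 * (k : ℤ) + 1)

lemma mem_cel (k : ℕ) (x : Fin d → ℤ) : x ∈ bx (cc k (cel k x)) k := by
  rw [mem_bx]
  intro i
  unfold cc cel
  have hpos : (0 : ℤ) < 2 * (k : ℤ) + 1 := by positivity
  have h1 := Int.mul_ediv_add_emod (x i + k) (2 * (k : ℤ) + 1)
  have h2 := Int.emod_nonneg (x i + k) hpos.ne'
  have h3 := Int.emod_lt_of_pos (x i + k) hpos
  rw [abs_le]
  constructor <;> linarith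

lemma cel_near (k : ℕ) {w x z : Fin d → ℤ} {m : ℕ} (hx : x ∈ bx (cc k w) (rr k m))
    (hz : x ∈ bx (cc k z) k) : z ∈ bx w m := by
  rw [mem_bx] at *
  intro i
  have h1 := hx i
  have h2 := hz i
  unfold cc rr at *
  push_cast at h1
  have h3 : (2 * (k : ℤ) + 1) * (z i - w i) = (x i - (2 * (k : ℤ) + 1) * w i) -
      (x i - (2 * (k : ℤ) + 1) * z i) := by ring
  have h4 : |(2 * (k : ℤ) + 1) * (z i - w i)| ≤ ((2 * (k : ℤ) + 1) * m + k) + k := by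
    rw [h3]
    refine (abs_sub _ _).trans ?_
    linarith
  rw [abs_mul, abs_of_nonneg (by positivity : (0 : ℤ) ≤ 2 * (k : ℤ) + 1)] at h4
  by_contra hcon
  push Not at hcon
  have h5 : (m : ℤ) + 1 ≤ |z i - w i| := by linarith [Int.add_one_le_iff.2 hcon]
  have h6 : (2 * (k : ℤ) + 1) * (m + 1) ≤ (2 * (k : ℤ) + 1) * |z i - w i| :=
    mul_le_mul_of_nonneg_left h5 (by positivity)
  nlinarith

lemma exists_cell (k : ℕ) {w x : Fin d → ℤ} {m : ℕ} (hx : x ∈ bx (cc k w) (rr k m)) :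
    ∃ z ∈ bx w m, x ∈ bx (cc k z) k :=
  ⟨cel k x, cel_near k hx (mem_cel k x), mem_cel k x⟩

lemma big_sub (k : ℕ) {w w' : Fin d → ℤ} {m m' : ℕ} (h : bx w m ⊆ bx w' m') :
    bx (cc k w) (rr k m) ⊆ bx (cc k w') (rr k m') := by
  intro x hx
  obtain ⟨z, hz, hxz⟩ := exists_cell k hx
  exact cell_sub k (h hz) hxz

lemma cell_sph (k : ℕ) {w x : Fin d → ℤ} {m : ℕ} (hx : x ∈ sph (cc k w) (rr k m)) :
    ∃ z ∈ sph w m, x ∈ bx (cc k z) k := by
  rw [mem_sph] at hx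
  obtain ⟨h1, i, h2⟩ := hx
  obtain ⟨z, hz, hxz⟩ := exists_cell k h1
  refine ⟨z, mem_sph.2 ⟨hz, i, ?_⟩, hxz⟩
  rw [mem_bx] at hz hxz
  have h3 := hz i
  have h4 := hxz i
  unfold cc rr at *
  push_cast at h2
  have h5 : x i - (2 * (k : ℤ) + 1) * w i = (x i - (2 * (k : ℤ) + 1) * z i) +
      (2 * (k : ℤ) + 1) * (z i - w i) := by ring
  have h6 : (2 * (k : ℤ) + 1) * (m : ℤ) + k ≤ k + (2 * (k : ℤ) + 1) * |z i - w i| := by
    rw [← h2, h5]
    refine (abs_add_le _ _).trans ?_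
    rw [abs_mul, abs_of_nonneg (by positivity : (0 : ℤ) ≤ 2 * (k : ℤ) + 1)]
    linarith
  have h7 : (2 * (k : ℤ) + 1) * (m : ℤ) ≤ (2 * (k : ℤ) + 1) * |z i - w i| := by linarith
  have h8 : (m : ℤ) ≤ |z i - w i| := le_of_mul_le_mul_left h7 (by positivity)
  exact le_antisymm h3 h8

lemma big_disj (k : ℕ) {w w' x : Fin d → ℤ} {m : ℕ} (h : ∃ i, 2 * (m : ℤ) < |w i - w' i|)
    (hx : x ∈ bx (cc k w) (rr k m)) (hx' : x ∈ bx (cc k w') (rr k m)) : False := by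
  obtain ⟨i, hi⟩ := h
  obtain ⟨z, hz, hxz⟩ := exists_cell k hx
  have hz' := cel_near k hx' hxz
  rw [mem_bx] at hz hz'
  have h1 := hz i
  have h2 := hz' i
  have h3 := abs_sub_le (w i) (z i) (w' i)
  rw [abs_sub_comm (w i) (z i)] at h3
  linarith

lemma two_rr (k m : ℕ) : 2 * rr k m + 1 = (2 * k + 1) * (2 * m + 1) := by
  unfold rr; ring

lemma card_big (k m : ℕ) (w : Fin d → ℤ) :
    (bx (cc k w) (rr k m)).card = (2 * k + 1) ^ d * (2 * m + 1) ^ d := by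
  rw [card_bx, two_rr, mul_pow]

lemma card_sph_big (k m : ℕ) (w : Fin d → ℤ) :
    (sph (cc k w) (rr k m)).card ≤ (2 * k + 1) ^ d * (2 * m + 1) ^ d := by
  rw [← card_big k m w]
  exact Finset.card_le_card (fun x hx => (mem_sph.1 hx).1)

/-! ### powers of `k` -/

lemma k3 {k : ℕ} (hk : 2 ≤ k) : 2 * k + 3 ≤ k ^ 3 := by
  have h2 : 4 ≤ k ^ 2 := by nlinarith
  have h3 : k ^ 3 = k ^ 2 * k := by ring
  rcases Nat.lt_or_ge k 3 with h | h
  · have : k = 2 := by omega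
    subst this; norm_num
  · nlinarith

lemma pk {k a b : ℕ} (hk : 2 ≤ k) (h : a ≤ b) : k ^ a ≤ k ^ b :=
  Nat.pow_le_pow_right (by omega) h

lemma two_le_pk {k : ℕ} (hk : 2 ≤ k) (a : ℕ) : 2 ^ a ≤ k ^ a := Nat.pow_le_pow_left hk a

lemma self_le_pk {k : ℕ} (hk : 2 ≤ k) (a : ℕ) : a ≤ k ^ a :=
  (Nat.lt_two_pow_self (n := a)).le.trans (two_le_pk hk a)

lemma pow_side {k : ℕ} (hk : 2 ≤ k) (d : ℕ) : (2 * k + 1) ^ d ≤ k ^ (3 * d) := by
  rw [pow_mul]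
  exact Nat.pow_le_pow_left (by have := k3 hk; omega) d

lemma pow_side' {k : ℕ} (hk : 2 ≤ k) (d : ℕ) : (2 * (k + 1) + 1) ^ d ≤ k ^ (3 * d) := by
  rw [pow_mul]
  exact Nat.pow_le_pow_left (by have := k3 hk; omega) d

lemma const_pow {k : ℕ} (hk : 2 ≤ k) (c d : ℕ) : c ^ d ≤ k ^ (c * d) := by
  rw [pow_mul]
  exact Nat.pow_le_pow_left (self_le_pk hk c) d

/-- an upper bound for a real constant by a power of two -/
lemma real_le_pk {k : ℕ} (hk : 2 ≤ k) (x : ℝ) : x ≤ ((k ^ ⌈x⌉₊ : ℕ) : ℝ) := by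
  refine (Nat.le_ceil x).trans ?_
  exact_mod_cast self_le_pk hk ⌈x⌉₊

/-- difference of points of neighbouring cells -/
lemma diff_cells (k : ℕ) {z z' x y : Fin d → ℤ} (hz : z' = z ∨ ∃ i, z' = z + ev i)
    (hx : x ∈ bx (cc k z) k) (hy : y ∈ bx (cc k z') k) : y - x ∈ bx (0 : Fin d → ℤ) (4 * k + 1) := by
  rw [mem_bx] at *
  intro i
  have h1 := hx i
  have h2 := hy i
  have h3 : |z' i - z i| ≤ 1 := by
    rcases hz with rfl | ⟨j, rfl⟩
    · simp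
    · by_cases h : i = j
      · subst h; simp [ev]
      · simp [ev, h]
  unfold cc at *
  have h4 : (y - x) i - (0 : Fin d → ℤ) i = (y i - (2 * (k : ℤ) + 1) * z' i) -
      (x i - (2 * (k : ℤ) + 1) * z i) + (2 * (k : ℤ) + 1) * (z' i - z i) := by
    simp; ring
  rw [h4]
  refine (abs_add_le _ _).trans ?_
  have h5 := abs_sub (y i - (2 * (k : ℤ) + 1) * z' i) (x i - (2 * (k : ℤ) + 1) * z i)
  rw [abs_mul, abs_of_nonneg (by positivity : (0 : ℤ) ≤ 2 * (k : ℤ) + 1)]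
  have h6 : (2 * (k : ℤ) + 1) * |z' i - z i| ≤ (2 * (k : ℤ) + 1) * 1 :=
    mul_le_mul_of_nonneg_left h3 (by positivity)
  push_cast
  linarith

lemma box_in (k C : ℕ) {z x : Fin d → ℤ} (hx : x ∈ bx (cc k z) k) :
    bx x (C * (4 * k + 1)) ⊆ bx (cc k z) (rr k (2 * C)) := by
  refine bx_subset fun i => ?_
  have h1 := mem_bx.1 hx i
  unfold rr
  push_cast
  nlinarith [Nat.cast_nonneg (α := ℤ) C, Nat.cast_nonneg (α := ℤ) k]

/-- two-arm bound at a hyperedge `tI x (b t)` -/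
lemma arm_gen {ι V : Type} (H : HLat d ι V) (q : NNReal) (hq : q ≤ 1) (hq0 : 0 < q) (hd : 1 ≤ d)
    (t : H.κ) (x z : Fin d → ℤ) {R r : ℕ} (hR : 1 ≤ R) (h : bx x R ⊆ bx z r) :
    (bm ι q hq).real (TW H.N (H.E z r) (H.F z r) (H.tI x (H.b t))) ≤ H.KA q / Real.sqrt R := by
  refine le_trans ?_ (H.al_bound q hq hq0 hd t R hR)
  rw [← H.al_eq q hq t x]
  exact measureReal_mono (H.TW_anti h (H.E_mono _ _ _ _ (bx_mono x hR) (H.memE t x)))
    (measure_ne_top _ _)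

lemma box_in_r (k : ℕ) {w x : Fin d → ℤ} {γ r : ℕ} (h : γ < r) (hx : x ∈ bx (cc k w) (rr k γ)) :
    bx x (r - γ) ⊆ bx (cc k w) (rr k r) := by
  refine bx_subset fun i => ?_
  have h1 := mem_bx.1 hx i
  have h2 : ((r - γ : ℕ) : ℤ) = (r : ℤ) - γ := by omega
  rw [h2]
  unfold rr at *
  push_cast at *
  have h3 : (γ : ℤ) < r := by exact_mod_cast h
  have h4 : (0 : ℤ) ≤ 2 * (k : ℤ) * ((r : ℤ) - γ) := by
    have : (0 : ℤ) ≤ (r : ℤ) - γ := by linarith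
    positivity
  nlinarith

end Pool.Agent.W804.PD
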