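import Pool.Agent.W804.PD.Geom

/-!
# Cells of bond percolation
-/

set_option autoImplicit false
set_option linter.all false
set_option linter.deprecated false

open MeasureTheory Set Pool.Agent.H978R2 Pool.Agent.W804.HP Pool.Agent.W870.PD

namespace Pool.Agent.W804.PD

variable {d : ℕ}

lemma card_bE_le (z : Fin d → ℤ) (r : ℕ) : (bE z r).card ≤ d * (2 * r + 1) ^ d := by
  unfold bE
  refine Finset.card_image_le.trans ((Finset.card_filter_le _ _).trans ?_)
  rw [Finset.card_product, card_bx, Finset.card_univ, Fintype.card_fin, mul_comm]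

lemma card_bE_big (k m : ℕ) (w : Fin d → ℤ) :
    (bE (cc k w) (rr k m)).card ≤ d * (2 * k + 1) ^ d * (2 * m + 1) ^ d := by
  refine (card_bE_le _ _).trans ?_
  rw [two_rr, mul_pow, mul_assoc]

lemma bE_sub_of {z z' : Fin d → ℤ} {r r' : ℕ} (h : bx z r ⊆ bx z' r') : bE z r ⊆ bE z' r' :=
  (bondH d).E_mono z r z' r' h

lemma bE_ends {z : Fin d → ℤ} {r : ℕ} {e : Sym2 (Fin d → ℤ)} (he : e ∈ bE z r) :
    ∀ v ∈ bN e, v ∈ bx z r := fun v hv => (bondH d).reg_N z r e he hv

lemma XB_lower (p : NNReal) (hp : p ≤ 1) {C D : ℕ}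
    (h : ∀ n : ℕ, 1 ≤ n → ∀ y ∈ bx (0 : Fin d → ℤ) n,
      (1 : ℝ) ≤ C * (n : ℝ) ^ D * (bm _ p hp).real (XB 0 y 0 (C * n)))
    (n : ℕ) (hn : 1 ≤ n) (x y z : Fin d → ℤ) (r : ℕ) (hxy : y - x ∈ bx (0 : Fin d → ℤ) n)
    (hb : bx x (C * n) ⊆ bx z r) :
    (1 : ℝ) ≤ C * (n : ℝ) ^ D * (bm _ p hp).real {ω | Con bN (bE z r) ω x y} := by
  have h1 := h n hn (y - x) hxy
  have h2 := XB_iso p hp (isoT x) 0 (y - x) 0 (C * n)
  have e1 : (isoT x).σ 0 = x := by show x + 0 = x; simp
  have e2 : (isoT x).σ (y - x) = y := by show x + (y - x) = y; abel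
  rw [e1, e2] at h2
  rw [← h2] at h1
  refine h1.trans (mul_le_mul_of_nonneg_left (measureReal_mono ?_ (measure_ne_top _ _)) (by positivity))
  intro ω hω
  exact Con.mono (bE_sub_of hb) le_rfl hω

/-- the exponent -/
noncomputable def AB (d : ℕ) (p : NNReal) (C D : ℕ) : ℕ :=
  d + 3 * d + (2 * (2 * C) + 1) * d + (C + 4 * D) + 2 * C + ⌈1 / (p : ℝ)⌉₊ + ⌈(bondH d).KA p⌉₊ + 1

lemma four_side {k : ℕ} (hk : 2 ≤ k) : 4 * k + 1 ≤ k ^ 4 := by
  have h := k3 hk
  have h4 : k ^ 4 = k ^ 3 * k := by ring
  rw [h4]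
  nlinarith

theorem instB : S_instB := by
  intro d p hp hd hp0 hPol
  obtain ⟨C, D, hC, hPol⟩ := hPol
  have p0 : (0 : ℝ) < p := by exact_mod_cast hp0
  refine ⟨AB d p C D, by unfold AB; omega, ?_⟩
  intro k hk
  have hle : ∀ a, a ≤ AB d p C D → k ^ a ≤ k ^ (AB d p C D) := fun a ha => pk hk ha
  have hd1 : d * (2 * k + 1) ^ d ≤ k ^ (d + 3 * d) := by
    rw [pow_add]
    exact Nat.mul_le_mul (self_le_pk hk d) (pow_side hk d)
  have hγc : (2 * (2 * C) + 1) ^ d ≤ k ^ ((2 * (2 * C) + 1) * d) := const_pow hk _ d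
  refine ⟨{
    N := bN
    E := fun w m => bE (cc k w) (rr k m)
    F := fun w m => sph (cc k w) (rr k m)
    U := fun z => bx (cc k z) k
    T := fun z => bE (cc k z) (k + 1)
    q := k ^ (AB d p C D)
    E_mono := fun w m w' m' h => bE_sub_of (big_sub k h)
    exit := fun w m w' m' ω z u f h hz hu hf hc =>
      bond_exit _ _ _ _ ω u f (big_sub k h) (cell_sub k hz hu) hf hc
    lvl := fun w m f hf => cell_sph k hf
    cov := fun w m i hi v hv => exists_cell k (bE_ends hi v hv)
    mem_T := fun w m i z v hi hv hvz => by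
      induction i using Sym2.ind with
      | _ x y =>
        rw [mk_mem_bE] at hi ⊢
        have hv' : v ∈ s(x, y) := hv
        rw [Sym2.mem_iff] at hv'
        have key : ∀ a b : Fin d → ℤ, (lat d).Adj a b → a ∈ bx (cc k z) k →
            b ∈ bx (cc k z) (k + 1) := by
          intro a b hab ha
          rw [mem_bx] at *
          intro i
          have h1 := ha i
          have h2 := adj_abs_le hab i
          have h3 := abs_sub_le (b i) (a i) (cc k z i)
          rw [abs_sub_comm (b i) (a i)] at h3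
          push_cast
          linarith
        have hk1 : bx (cc k z) k ⊆ bx (cc k z) (k + 1) := bx_mono _ (by omega)
        rcases hv' with rfl | rfl
        · exact ⟨hi.1, hk1 hvz, key _ _ hi.1 hvz⟩
        · exact ⟨hi.1, key _ _ hi.1.symm hvz, hk1 hvz⟩
    card_U := fun z => by
      rw [card_bx]
      exact (pow_side hk d).trans (hle _ (by unfold AB; omega))
    card_T := fun z => by
      refine (card_bE_le _ _).trans ?_
      refine le_trans ?_ (hle (d + 3 * d) (by unfold AB; omega))
      rw [pow_add]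
      exact Nat.mul_le_mul (self_le_pk hk d) (pow_side' hk d)
    card_E := fun w m => by
      refine (card_bE_big k m w).trans ?_
      exact Nat.mul_le_mul_right _ (hd1.trans (hle _ (by unfold AB; omega)))
    card_F := fun w m => by
      refine (card_sph_big k m w).trans ?_
      exact Nat.mul_le_mul_right _ ((pow_side hk d).trans (hle _ (by unfold AB; omega)))
    ind := fun w w' m h => by
      rw [Finset.disjoint_left]
      intro e he he'
      induction e using Sym2.ind with
      | _ x y =>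
        rw [mk_mem_bE] at he he'
        exact big_disj k h he.2.1 he'.2.1
    γ := 2 * C
    q_pos := by
      have h1 : k ^ 1 ≤ k ^ (AB d p C D) := hle 1 (by unfold AB; omega)
      rw [pow_one] at h1
      exact hk.trans h1
    hγ := (self_le_pk hk (2 * C)).trans (hle _ (by unfold AB; omega))
    hpq := by
      have h1 := real_le_pk hk (1 / (p : ℝ))
      have h2 : ((k ^ ⌈1 / (p : ℝ)⌉₊ : ℕ) : ℝ) ≤ ((k ^ (AB d p C D) : ℕ) : ℝ) :=
        Nat.cast_le.2 (hle ⌈1 / (p : ℝ)⌉₊ (by unfold AB; omega))
      have h3 : 1 / (p : ℝ) ≤ ((k ^ (AB d p C D) : ℕ) : ℝ) := h1.trans h2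
      rw [div_le_iff₀ p0] at h3
      exact h3
    card_γ := fun z => by
      refine (card_bE_big k _ z).trans ?_
      refine le_trans ?_ (hle (d + 3 * d + (2 * (2 * C) + 1) * d) (by unfold AB; omega))
      rw [pow_add _ (d + 3 * d)]
      exact Nat.mul_le_mul hd1 hγc
    mul := fun i S hS => by
      rcases S.eq_empty_or_nonempty with h | ⟨z0, hz0⟩
      · rw [h]; simp
      · induction i using Sym2.ind with
        | _ x y =>
          have h1 : S ⊆ bx (cel k x) (2 * C) := by
            intro z hz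
            have h2 := hS z hz
            rw [mk_mem_bE] at h2
            have h3 := cel_near k h2.2.1 (mem_cel k x)
            rw [mem_bx] at h3 ⊢
            intro i
            rw [abs_sub_comm]
            exact h3 i
          refine (Finset.card_le_card h1).trans ?_
          rw [card_bx]
          exact hγc.trans (hle _ (by unfold AB; omega))
    glu := fun z z' hz x hx y hy => by
      have h1 := XB_lower p hp hPol (4 * k + 1) (by omega) x y (cc k z) (rr k (2 * C))
        (diff_cells k hz hx hy) (box_in k C hx)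
      refine h1.trans (mul_le_mul_of_nonneg_right ?_ measureReal_nonneg)
      have h2 : C * (4 * k + 1) ^ D ≤ k ^ (C + 4 * D) := by
        rw [pow_add, pow_mul]
        exact Nat.mul_le_mul (self_le_pk hk C) (Nat.pow_le_pow_left (four_side hk) D)
      have h3 := h2.trans (hle (C + 4 * D) (by unfold AB; omega))
      exact_mod_cast h3
    arm := fun w r i hr hi => by
      obtain ⟨x, t, h1, h2, rfl⟩ := mem_bE.1 hi
      have h3 := arm_gen (bondH d) p hp hp0 hd t x (cc k w) (R := r - 2 * C) (r := rr k r)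
        (by omega) (box_in_r k hr h1)
      have e1 : (bondH d).tI x ((bondH d).b t) = s(x, x + ev t) := by
        show s2 (Equiv.addLeft x) s(0, ev t) = _
        rw [s2_mk]; simp
      rw [e1] at h3
      refine h3.trans (div_le_div_of_nonneg_right ?_ (Real.sqrt_nonneg _))
      refine (real_le_pk hk _).trans ?_
      exact_mod_cast hle ⌈(bondH d).KA p⌉₊ (by unfold AB; omega) },
    rfl, rfl, fun _ _ => rfl, fun _ _ => rfl, fun _ => rfl⟩

end Pool.Agent.W804.PD
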